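import Mathlib
import Pool.Agent.R973.CD.Final

/-!
# MP_af1bb3_co: the gap between connected domination and domination (helper973)

`gap n k` is `M(n,k)`, the largest difference between the connected domination number and the
domination number over the connected graphs on `n` vertices with minimum degree at least `k`.
-/

set_option autoImplicit false

namespace Pool.Agent.Results.MP_af1bb3_co.LogLogSharp

open Pool.Agent.R973.CD Filter

/-- The known upper bound `(n/(k+1)) (ln ln k + O(1))` for the gap is asymptotically sharp: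
for every positive `ε`, all large `k` and all `n ≥ K k` the gap is at least
`(1 - ε) (n/(k+1)) ln ln (k+1)`. In particular no constant `C` satisfies
`gap n k ≤ C n/(k+1)` for all `k ≥ 1`, `n ≥ k+1`. -/
theorem result :
    (∀ ε : ℝ, 0 < ε → ∃ K : ℕ, ∀ k n : ℕ, K ≤ k → K * k ≤ n →
      (1 - ε) * ((n : ℝ) / (k + 1)) * Real.log (Real.log (k + 1)) ≤ gap n k) ∧
    (∀ C : ℝ, ∃ k n : ℕ, 1 ≤ k ∧ k + 1 ≤ n ∧ C * ((n : ℝ) / (k + 1)) < gap n k) := by
  have h1 : ∀ ε : ℝ, 0 < ε → ∃ K : ℕ, ∀ k n : ℕ, K ≤ k → K * k ≤ n →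
      (1 - ε) * ((n : ℝ) / (k + 1)) * Real.log (Real.log (k + 1)) ≤ gap n k := by
    intro ε hε
    obtain ⟨K, hK⟩ := gap_lower_eta (min ε (1 / 2) / 5) (by positivity) (by
      have := min_le_right ε (1 / 2); linarith)
    refine ⟨K + 1, ?_⟩
    intro k n hk hn
    obtain ⟨hy, hmain⟩ := hK k n (by omega) (le_trans (Nat.mul_le_mul_right k (by omega)) hn)
    refine le_trans ?_ hmain
    have hk0 : (0 : ℝ) < k := by
      have : 0 < k := by omega
      exact_mod_cast this
    have hX : (n : ℝ) / (k + 1) ≤ n / k := by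
      apply div_le_div_of_nonneg_left (Nat.cast_nonneg n) hk0
      linarith
    have hm := min_le_left ε (1 / 2)
    have hm2 := min_le_right ε (1 / 2)
    have h5 : 1 - 5 * (min ε (1 / 2) / 5) = 1 - min ε (1 / 2) := by ring
    rw [h5]
    have hnn : 0 ≤ (n : ℝ) / (k + 1) := by positivity
    have hy0 : 0 ≤ Real.log (Real.log ((k : ℝ) + 1)) := by linarith
    calc (1 - ε) * ((n : ℝ) / (k + 1)) * Real.log (Real.log (k + 1))
        = (1 - ε) * (((n : ℝ) / (k + 1)) * Real.log (Real.log (k + 1))) := by ring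
      _ ≤ (1 - min ε (1 / 2)) * (((n : ℝ) / (k + 1)) * Real.log (Real.log (k + 1))) := by
          apply mul_le_mul_of_nonneg_right (by linarith)
          exact mul_nonneg hnn hy0
      _ ≤ (1 - min ε (1 / 2)) * (((n : ℝ) / k) * Real.log (Real.log (k + 1))) := by
          apply mul_le_mul_of_nonneg_left _ (by linarith)
          exact mul_le_mul_of_nonneg_right hX hy0
  refine ⟨h1, ?_⟩
  intro C
  obtain ⟨K, hK⟩ := h1 (1 / 2) (by norm_num)
  have htend : Tendsto (fun k : ℕ => Real.log (Real.log ((k : ℝ) + 1))) atTop atTop :=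
    Real.tendsto_log_atTop.comp (Real.tendsto_log_atTop.comp
      (tendsto_atTop_add_const_right _ _ tendsto_natCast_atTop_atTop))
  obtain ⟨k, hk1, hk2⟩ := ((htend.eventually (eventually_gt_atTop (2 * C))).and
    (eventually_ge_atTop (K + 1))).exists
  have hn : k + 1 ≤ (K + 2) * k := by nlinarith
  refine ⟨k, (K + 2) * k, by omega, hn, ?_⟩
  have h2 := hK k ((K + 2) * k) (by omega) (Nat.mul_le_mul_right k (by omega))
  refine lt_of_lt_of_le ?_ h2
  have hn0 : (0 : ℝ) < (((K + 2) * k : ℕ) : ℝ) / (k + 1) := by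
    apply div_pos
    · have : 0 < (K + 2) * k := by omega
      exact_mod_cast this
    · positivity
  have h3 : C < (1 / 2) * Real.log (Real.log ((k : ℝ) + 1)) := by linarith
  calc C * ((((K + 2) * k : ℕ) : ℝ) / (k + 1))
      < ((1 / 2) * Real.log (Real.log ((k : ℝ) + 1))) * ((((K + 2) * k : ℕ) : ℝ) / (k + 1)) :=
        mul_lt_mul_of_pos_right h3 hn0
    _ = (1 - 1 / 2) * ((((K + 2) * k : ℕ) : ℝ) / (k + 1)) *
        Real.log (Real.log ((k : ℝ) + 1)) := by ring

end Pool.Agent.Results.MP_af1bb3_co.LogLogSharp
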